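import Pool.Agent.W300.FT.Stm

set_option autoImplicit false

/-! Project FT, part PR1. -/

namespace Pool.Agent.W778.FT.PR1

open MeasureTheory ProbabilityTheory Filter
open Pool.Agent.W300.FT

theorem half {X : Type} [MeasurableSpace X] (μ : Measure X) (P A0 : Set X) (a : X → ℕ → Bool)
    (hPA : P ⊆ A0) (I : Set ℕ) (hI : I.Infinite)
    (h : ∀ i ∈ I, ∃ c : Bool, ∀ᵐ x ∂μ, x ∈ P → a x i = c)
    (h0 : ∀ I : Set ℕ, I.Infinite → ∀ c : ℕ → Bool, μ (A0 ∩ {x | ∀ i ∈ I, a x i = c i}) = 0) :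
    μ P = 0 := by
  classical
  choose! c hc using h
  have h1 : ∀ᵐ x ∂μ, ∀ i, i ∈ I → x ∈ P → a x i = c i := by
    rw [ae_all_iff]
    intro i
    by_cases hi : i ∈ I
    · filter_upwards [hc i hi] with x hx _ using hx
    · exact Eventually.of_forall fun x h => absurd h hi
  have h2 : ∀ᵐ x ∂μ, x ∉ A0 ∩ {x | ∀ i ∈ I, a x i = c i} := measure_eq_zero_iff_ae_notMem.1 (h0 I hI c)
  rw [measure_eq_zero_iff_ae_notMem]
  filter_upwards [h1, h2] with x h3 h4 hx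
  exact h4 ⟨hPA hx, fun i hi => h3 i hi hx⟩

theorem dich {X Z : Type} [MeasurableSpace X] [MeasurableSpace Z] (μ : Measure X) (ρ : Measure Z)
    (P : Set X) (Q : Set Z) (a u : X → Bool) (b w : Z → Bool)
    (h : ∀ᵐ z ∂ρ, ∀ᵐ x ∂μ, x ∈ P → z ∈ Q → (a x && b z) = xor (u x) (w z)) :
    (∃ c : Bool, ∀ᵐ x ∂μ, x ∈ P → a x = c) ∨ ∃ c : Bool, ∀ᵐ z ∂ρ, z ∈ Q → b z = c := by
  by_contra hcon
  rw [not_or] at hcon
  obtain ⟨h1, h2⟩ := hcon
  push Not at h2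
  obtain ⟨z1, ⟨hz1, hb1⟩, hr1⟩ := ((h2 false).and_eventually h).exists
  obtain ⟨z0, ⟨hz0, hb0⟩, hr0⟩ := ((h2 true).and_eventually h).exists
  refine h1 ⟨xor (w z0) (w z1), ?_⟩
  filter_upwards [hr1, hr0] with x hx1 hx0 hP
  have e1 := hx1 hP hz1
  have e0 := hx0 hP hz0
  revert e1 e0 hb1 hb0
  cases a x <;> cases b z1 <;> cases b z0 <;> cases u x <;> cases w z1 <;> cases w z0 <;> simp

theorem pr1 : S_PR1 := by
  intro X Y Z _ _ _ μ ν ρ _ _ _ EL ER A0 B0 a b u w hEL hER hA0 hB0 ha hb hu hw hELA hERB hrel hA hB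
  let e : (X × Y) × Z ≃ᵐ Y × (X × Z) :=
    (MeasurableEquiv.prodCongr MeasurableEquiv.prodComm (MeasurableEquiv.refl Z)).trans
      MeasurableEquiv.prodAssoc
  have he : MeasurePreserving e ((μ.prod ν).prod ρ) (ν.prod (μ.prod ρ)) :=
    (measurePreserving_prodAssoc ν μ ρ).comp
      ((Measure.measurePreserving_swap (μ := μ) (ν := ν)).prod (MeasurePreserving.id ρ))
  have hes := he.symm e
  have h1 : ∀ᵐ q ∂(ν.prod (μ.prod ρ)), (q.2.1, q.1) ∈ EL → (q.1, q.2.2) ∈ ER →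
      ∀ i, (a q.2.1 i && b q.2.2 i) = xor (u (q.2.1, q.1) i) (w (q.1, q.2.2) i) :=
    hes.quasiMeasurePreserving.ae hrel
  have hS : MeasurableSet {q : Y × (X × Z) | (q.2.1, q.1) ∈ EL ∧ (q.1, q.2.2) ∈ ER} := by
    refine MeasurableSet.inter ?_ ?_
    · exact ((measurable_fst.comp measurable_snd).prodMk measurable_fst) hEL
    · exact (measurable_fst.prodMk (measurable_snd.comp measurable_snd)) hER
  have h2 : ((μ.prod ν).prod ρ) {t | t.1 ∈ EL ∧ (t.1.2, t.2) ∈ ER} =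
      (ν.prod (μ.prod ρ)) {q : Y × (X × Z) | (q.2.1, q.1) ∈ EL ∧ (q.1, q.2.2) ∈ ER} := by
    rw [← he.measure_preimage hS.nullMeasurableSet]
    rfl
  rw [h2, Measure.measure_prod_null hS]
  filter_upwards [Measure.ae_ae_of_ae_prod h1] with y hy
  have hset : Prod.mk y ⁻¹' {q : Y × (X × Z) | (q.2.1, q.1) ∈ EL ∧ (q.1, q.2.2) ∈ ER} =
      {x | (x, y) ∈ EL} ×ˢ {z | (y, z) ∈ ER} := by
    ext ⟨x, z⟩
    rfl
  rw [hset, Measure.prod_prod, Pi.zero_apply]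
  have hsw : ∀ᵐ z ∂ρ, ∀ᵐ x ∂μ, (x, y) ∈ EL → (y, z) ∈ ER →
      ∀ i, (a x i && b z i) = xor (u (x, y) i) (w (y, z) i) := by
    have h3 := (Measure.measurePreserving_swap (μ := ρ) (ν := μ)).quasiMeasurePreserving.ae hy
    exact Measure.ae_ae_of_ae_prod h3
  have hd : ∀ i : ℕ, (∃ c : Bool, ∀ᵐ x ∂μ, x ∈ {x | (x, y) ∈ EL} → a x i = c) ∨
      ∃ c : Bool, ∀ᵐ z ∂ρ, z ∈ {z | (y, z) ∈ ER} → b z i = c := by
    intro i
    refine dich μ ρ _ _ (fun x => a x i) (fun x => u (x, y) i) (fun z => b z i)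
      (fun z => w (y, z) i) ?_
    filter_upwards [hsw] with z hz
    filter_upwards [hz] with x hx h4 h5
    exact hx h4 h5 i
  have hun : {i : ℕ | ∃ c : Bool, ∀ᵐ x ∂μ, x ∈ {x | (x, y) ∈ EL} → a x i = c} ∪
      {i : ℕ | ∃ c : Bool, ∀ᵐ z ∂ρ, z ∈ {z | (y, z) ∈ ER} → b z i = c} = Set.univ :=
    Set.eq_univ_of_forall fun i => hd i
  have hinf : ({i : ℕ | ∃ c : Bool, ∀ᵐ x ∂μ, x ∈ {x | (x, y) ∈ EL} → a x i = c} ∪
      {i : ℕ | ∃ c : Bool, ∀ᵐ z ∂ρ, z ∈ {z | (y, z) ∈ ER} → b z i = c}).Infinite := by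
    rw [hun]
    exact Set.infinite_univ
  rcases Set.infinite_union.1 hinf with hI | hI
  · rw [half μ {x | (x, y) ∈ EL} A0 a (fun x hx => hELA (x, y) hx) _ hI (fun i hi => hi) hA, zero_mul]
  · rw [half ρ {z | (y, z) ∈ ER} B0 b (fun z hz => hERB (y, z) hz) _ hI (fun i hi => hi) hB, mul_zero]

end Pool.Agent.W778.FT.PR1
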